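import Pool.Agent.Helper16.BZ.Stmts

/-!
Bounded pointwise convergence.
-/

open Finset Filter MeasureTheory Topology
open scoped ComplexConjugate InnerProductSpace

namespace Pool.Agent.Helper16.BZ

open Pool.Agent.Helper16.AZ (T E Op mm Eig PP ST_VDH ST_MSR ST_MRF ST_FPV ST_TLR)
open Pool.Agent.Helper16.MD (MS PB Am RW Rich)
open UnitAddTorus (mFourier)
open Pool.Agent.Helper40.Mob (IsState)

universe u

open scoped ComplexOrder in
/-- the GNS representation -/
theorem rmf2_gns {A : Type u} [CStarAlgebra A] (ρ : A →L[ℂ] ℂ) (hρ : IsState ρ) :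
    ∃ (H : Type u) (_ : NormedAddCommGroup H) (_ : InnerProductSpace ℂ H) (_ : CompleteSpace H)
      (σ : A →⋆ₐ[ℂ] (H →L[ℂ] H)) (ζ : H), ∀ a, ρ a = inner ℂ ζ (σ a ζ) := by
  let _ := CStarAlgebra.spectralOrder A
  have := CStarAlgebra.spectralOrderedRing A
  have hpos : ∀ a : A, 0 ≤ a → 0 ≤ (ρ : A →ₗ[ℂ] ℂ) a := by
    intro a ha
    obtain ⟨b, rfl⟩ := CStarAlgebra.nonneg_iff_eq_star_mul_self.1 ha
    obtain ⟨r, hr, h1⟩ := hρ.1 b
    change 0 ≤ ρ (star b * b)
    rw [h1]
    exact_mod_cast hr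
  let f : A →ₚ[ℂ] ℂ := PositiveLinearMap.mk₀ (ρ : A →ₗ[ℂ] ℂ) hpos
  have hval : ∀ a, f.gnsStarAlgHom a ((f.toPreGNS 1 : f.PreGNS) : f.GNS) =
      ((f.toPreGNS a : f.PreGNS) : f.GNS) := by
    intro a
    change f.gnsNonUnitalStarAlgHom a ((f.toPreGNS 1 : f.PreGNS) : f.GNS) = _
    rw [PositiveLinearMap.gnsNonUnitalStarAlgHom_apply_coe]
    simp only [PositiveLinearMap.ofPreGNS_toPreGNS,
      PositiveLinearMap.leftMulMapPreGNS_apply, mul_one]
  refine ⟨f.GNS, inferInstance, inferInstance, inferInstance, f.gnsStarAlgHom,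
    ((f.toPreGNS 1 : f.PreGNS) : f.GNS), fun a => ?_⟩
  rw [hval, UniformSpace.Completion.inner_coe, PositiveLinearMap.preGNS_inner_def]
  simp only [PositiveLinearMap.ofPreGNS_toPreGNS, star_one, one_mul]
  rfl

/-- the real function as a complex one -/
noncomputable def rmf2_i {X : Type} [MetricSpace X] [CompactSpace X] (g : C(X, ℝ)) : C(X, ℂ) := ⟨fun x => (g x : ℂ), by fun_prop⟩

theorem rmf2_measure {A : Type u} [CStarAlgebra A] {X : Type} [MetricSpace X] [CompactSpace X]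
    [MeasurableSpace X] [BorelSpace X] (π : C(X, ℂ) →⋆ₐ[ℂ] A)
    (ρ : A →L[ℂ] ℂ) (hρ : IsState ρ) : ∃ ν : Measure (X), IsFiniteMeasure ν ∧
    ∀ g : C(X, ℝ), ∫ x, g x ∂ν = (ρ (π (rmf2_i g))).re := by
  classical
  have hιadd : ∀ f g : C(X, ℝ), rmf2_i (f + g) = rmf2_i f + rmf2_i g := by
    intro f g; ext x; simp [rmf2_i]
  have hιsmul : ∀ (c : ℝ) (g : C(X, ℝ)), rmf2_i (c • g) = (c : ℂ) • rmf2_i g := by
    intro c g; ext x; simp [rmf2_i]
  let L : CompactlySupportedContinuousMap (X) ℝ →ₗ[ℝ] ℝ :=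
    { toFun := fun f => (ρ (π (rmf2_i (f : C(X, ℝ))))).re
      map_add' := by
        intro f g
        have : ((f + g : CompactlySupportedContinuousMap (X) ℝ) :
            C(X, ℝ)) = (f : C(X, ℝ)) + (g : C(X, ℝ)) := by
          ext x; rfl
        rw [this, hιadd, map_add, map_add, Complex.add_re]
      map_smul' := by
        intro c f
        have : ((c • f : CompactlySupportedContinuousMap (X) ℝ) :
            C(X, ℝ)) = c • (f : C(X, ℝ)) := by
          ext x; rfl
        rw [this, hιsmul, map_smul, map_smul]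
        simp }
  have hpos' : ∀ g : C(X, ℝ), 0 ≤ g → 0 ≤ (ρ (π (rmf2_i g))).re := by
    intro g hg
    let s : C(X, ℂ) := ⟨fun x => ((Real.sqrt (g x) : ℝ) : ℂ), by fun_prop⟩
    have h1 : rmf2_i g = star s * s := by
      ext x
      have h2 : 0 ≤ g x := hg x
      simp only [rmf2_i, s, ContinuousMap.coe_mk, ContinuousMap.mul_apply, ContinuousMap.star_apply]
      rw [Complex.star_def, Complex.conj_ofReal, ← Complex.ofReal_mul, Real.mul_self_sqrt h2]
    rw [h1, map_mul, map_star]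
    obtain ⟨t, ht, h3⟩ := hρ.1 (π s)
    rw [h3, Complex.ofReal_re]
    exact ht
  have hpos : ∀ f : CompactlySupportedContinuousMap (X) ℝ, 0 ≤ f → 0 ≤ L f := by
    intro f hf
    exact hpos' f hf
  let Λ := PositiveLinearMap.mk₀ L hpos
  let ν := RealRMK.rieszMeasure Λ
  have hν : IsFiniteMeasure ν := inferInstance
  refine ⟨ν, hν, fun g => ?_⟩
  let g' : CompactlySupportedContinuousMap (X) ℝ :=
    ⟨g, HasCompactSupport.of_compactSpace _⟩
  have h1 : ∫ x, g' x ∂ν = Λ g' := RealRMK.integral_rieszMeasure Λ g'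
  have h2 : ∫ x, g x ∂ν = ∫ x, g' x ∂ν := rfl
  rw [h2, h1]
  rfl

theorem st_RMF2 : ST_RMF2.{u} := by
  intro A _ X _ _ π ρ a F B hρ hB hF
  let _ : MeasurableSpace X := borel X
  have : BorelSpace X := ⟨rfl⟩
  obtain ⟨ν, hν, hνi⟩ := rmf2_measure π ρ hρ
  obtain ⟨H, _, _, _, σ, ζ, hζ⟩ := rmf2_gns ρ hρ
  let g : ℕ → C(X, ℝ) := fun n => ⟨fun x => ‖F n x‖ ^ 2, by fun_prop⟩
  have hg : ∀ n, rmf2_i (g n) = F n * star (F n) := by
    intro n
    ext x
    simp only [rmf2_i, g, ContinuousMap.coe_mk, ContinuousMap.mul_apply, ContinuousMap.star_apply]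
    rw [Complex.star_def, Complex.mul_conj, Complex.normSq_eq_norm_sq]
  have hlim : Tendsto (fun n => ∫ x, g n x ∂ν) atTop (𝓝 0) := by
    have h0 : (0 : ℝ) = ∫ x : X, (0 : ℝ) ∂ν := by simp
    rw [h0]
    apply tendsto_integral_of_dominated_convergence (fun _ => B ^ 2)
    · intro n
      exact (g n).continuous.aestronglyMeasurable
    · exact integrable_const _
    · intro n
      refine Eventually.of_forall (fun x => ?_)
      have h1 : ‖(g n) x‖ = ‖F n x‖ ^ 2 := by
        change ‖‖F n x‖ ^ 2‖ = _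
        rw [Real.norm_eq_abs, abs_of_nonneg (by positivity)]
      rw [h1]
      exact pow_le_pow_left₀ (norm_nonneg _) (hB n x) 2
    · refine Eventually.of_forall (fun x => ?_)
      have h1 := ((hF x).norm).pow 2
      rw [norm_zero, zero_pow two_ne_zero] at h1
      exact h1
  have hkey : ∀ n, ‖ρ (π (F n) * a)‖ ≤ Real.sqrt (∫ x, g n x ∂ν) * ‖σ a ζ‖ := by
    intro n
    have h1 : ρ (π (F n) * a) = inner ℂ (σ (π (star (F n))) ζ) (σ a ζ) := by
      rw [hζ, map_mul, map_star π, map_star σ, ContinuousLinearMap.star_eq_adjoint,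
        ContinuousLinearMap.adjoint_inner_left]
      rfl
    have h2 : ‖σ (π (star (F n))) ζ‖ ^ 2 = ∫ x, g n x ∂ν := by
      rw [hνi, hg, hζ, map_mul, map_mul]
      have h3 : σ (π (F n)) = star (σ (π (star (F n)))) := by
        rw [← map_star, ← map_star, star_star]
      have h4 : (σ (π (F n)) * σ (π (star (F n)))) ζ = σ (π (F n)) (σ (π (star (F n))) ζ) := rfl
      rw [h4, h3, ContinuousLinearMap.star_eq_adjoint, ContinuousLinearMap.adjoint_inner_right,
        inner_self_eq_norm_sq_to_K]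
      norm_cast
    rw [h1, ← h2, Real.sqrt_sq (norm_nonneg _)]
    exact norm_inner_le_norm _ _
  have h5 : Tendsto (fun n => Real.sqrt (∫ x, g n x ∂ν) * ‖σ a ζ‖) atTop (𝓝 0) := by
    have h6 := (Real.continuous_sqrt.tendsto 0).comp hlim
    have h7 := h6.mul_const ‖σ a ζ‖
    simpa using h7
  exact squeeze_zero_norm hkey h5

end Pool.Agent.Helper16.BZ
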